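import Pool.Agent.Helper84K9.PC.Ham

/-!
# Bounds for the Cheeger constants
-/

set_option autoImplicit false

namespace Helper84K9.PC

open Finset PolyComplex
open scoped ENNReal

theorem ratio_bound {K N : ℝ} (hK : 0 < K) (hN : 0 < N) {I : ℝ≥0∞} (hI : I ≤ ENNReal.ofReal (K * N)) :
    ENNReal.ofReal (1 / K) ≤ ENNReal.ofReal N / I := by
  rw [ENNReal.le_div_iff_mul_le (Or.inr (by simpa using hN)) (Or.inr ENNReal.ofReal_ne_top)]
  calc ENNReal.ofReal (1 / K) * I ≤ ENNReal.ofReal (1 / K) * ENNReal.ofReal (K * N) := by gcongr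
    _ = ENNReal.ofReal N := by
      rw [← ENNReal.ofReal_mul (by positivity)]
      congr 1
      field_simp

theorem eq_of_dh {n : ℕ} (hn : 1 ≤ n) {σ τ : Equiv.Perm (Fin n)} (h : dh σ τ = 0) : σ = τ := by
  unfold dh at h
  have hn' : (0 : ℝ) < n := by exact_mod_cast hn
  rw [div_eq_zero_iff] at h
  have h1 : (univ.filter fun j => σ j ≠ τ j).card = 0 := by
    rcases h with h | h
    · exact_mod_cast h
    · exact absurd h hn'.ne'
  rw [Finset.card_eq_zero, Finset.filter_eq_empty_iff] at h1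
  ext j
  have := h1 (mem_univ j)
  simp only [ne_eq, not_not] at this
  rw [this]

open Classical in
/-- the data needed for the bounds on the measures -/
structure Wt (X : PolyComplex) (k : ℕ) : Prop where
  pos : 0 < Fintype.card X.V
  cardP : Fintype.card X.P ≤ (k + 1) * Fintype.card X.V
  cardD : Fintype.card X.V ≤ Fintype.card X.E
  deg : ∀ v, (univ.filter fun e : X.E => X.src e = v).card ≤ k
  many : ∀ e : X.E, Fintype.card X.V ≤
    (univ.filter fun p : X.P => ∃ i, X.bd p i = e ∨ X.bd p i = X.inv e).card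

namespace Wt

variable {X : PolyComplex} {k : ℕ} (h : Wt X k)
include h

omit h in
open Classical in
theorem w1_eq (e : X.E) : X.w1 e =
    ((univ.filter fun p : X.P => ∃ i, X.bd p i = e ∨ X.bd p i = X.inv e).card : ℝ) /
      Fintype.card X.P := by
  unfold PolyComplex.w1 PolyComplex.mu2
  rw [Finset.sum_const, nsmul_eq_mul, mul_one_div]

theorem cardP_pos : 0 < Fintype.card X.P := by
  classical
  have hD : 0 < Fintype.card X.E := lt_of_lt_of_le h.pos h.cardD
  obtain ⟨e⟩ := Fintype.card_pos_iff.1 hD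
  have h1 := h.many e
  have h2 := h.pos
  refine lt_of_lt_of_le (lt_of_lt_of_le h2 h1) ?_
  exact Finset.card_le_univ _

theorem w1_le (e : X.E) : X.w1 e ≤ 1 := by
  classical
  rw [w1_eq]
  have h0 : (0 : ℝ) < Fintype.card X.P := by exact_mod_cast h.cardP_pos
  rw [div_le_one h0]
  exact_mod_cast Finset.card_le_univ _

theorem le_w1 (e : X.E) : 1 / ((k : ℝ) + 1) ≤ X.w1 e := by
  classical
  rw [w1_eq]
  have h0 : (0 : ℝ) < Fintype.card X.P := by exact_mod_cast h.cardP_pos
  rw [div_le_div_iff₀ (by positivity) h0]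
  have h1 : (Fintype.card X.V : ℝ) ≤
      ((univ.filter fun p : X.P => ∃ i, X.bd p i = e ∨ X.bd p i = X.inv e).card : ℝ) := by
    exact_mod_cast h.many e
  have h2 : (Fintype.card X.P : ℝ) ≤ (k + 1) * Fintype.card X.V := by exact_mod_cast h.cardP
  nlinarith

theorem D_pos : (0 : ℝ) < Fintype.card X.E := by
  exact_mod_cast lt_of_lt_of_le h.pos h.cardD

theorem sum_w1_le : ∑ f : X.E, X.w1 f ≤ Fintype.card X.E := by
  calc ∑ f : X.E, X.w1 f ≤ ∑ _f : X.E, (1 : ℝ) :=
        Finset.sum_le_sum fun e _ => h.w1_le e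
    _ = Fintype.card X.E := by simp

theorem le_sum_w1 : (Fintype.card X.E : ℝ) / (k + 1) ≤ ∑ f : X.E, X.w1 f := by
  calc (Fintype.card X.E : ℝ) / (k + 1) = ∑ _f : X.E, 1 / ((k : ℝ) + 1) := by
        simp [div_eq_mul_inv]
    _ ≤ _ := Finset.sum_le_sum fun e _ => h.le_w1 e

theorem sum_w1_pos : 0 < ∑ f : X.E, X.w1 f := by
  have h3 := h.D_pos
  exact lt_of_lt_of_le (by positivity) h.le_sum_w1

theorem mu1_le (e : X.E) : X.mu1 e ≤ (k + 1) / Fintype.card X.E := by
  have h1 := h.w1_le e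
  have h2 := h.le_sum_w1
  have h3 := h.D_pos
  unfold PolyComplex.mu1
  rw [div_le_div_iff₀ h.sum_w1_pos h3]
  have h6 : (Fintype.card X.E : ℝ) ≤ (k + 1) * ∑ f : X.E, X.w1 f := by
    rw [div_le_iff₀ (by positivity)] at h2
    linarith
  nlinarith

theorem le_mu1 (e : X.E) : 1 / ((k + 1) * Fintype.card X.E) ≤ X.mu1 e := by
  have h1 := h.le_w1 e
  have h2' := h.sum_w1_le
  have h3 := h.D_pos
  unfold PolyComplex.mu1
  rw [div_le_div_iff₀ (by positivity) h.sum_w1_pos]
  have h6 : 1 ≤ (k + 1) * X.w1 e := by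
    rw [div_le_iff₀ (by positivity)] at h1
    linarith
  nlinarith

theorem mu1_pos (e : X.E) : 0 < X.mu1 e :=
  lt_of_lt_of_le (by have := h.D_pos; positivity) (h.le_mu1 e)

theorem sum_mu1 : ∑ e : X.E, X.mu1 e = 1 := by
  unfold PolyComplex.mu1
  rw [← Finset.sum_div, div_self h.sum_w1_pos.ne']

theorem w0_le (v : X.V) : X.w0 v ≤ 2 * k * ((k + 1) / Fintype.card X.E) := by
  classical
  have h3 := h.D_pos
  unfold PolyComplex.w0
  have hcard : ((univ.filter (fun e : X.E => X.src e = v ∨ X.tgt e = v)).card : ℝ) ≤ 2 * k := by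
    have c1 : (univ.filter (fun e : X.E => X.src e = v)).card ≤ k := by
      refine le_trans (le_of_eq ?_) (h.deg v)
      congr
    have c2 : (univ.filter (fun e : X.E => X.tgt e = v)).card ≤ k := by
      refine le_trans (le_of_eq ?_) c1
      refine Finset.card_bij (fun e _ => X.inv e) ?_ ?_ ?_
      · intro e he
        rw [mem_filter] at he ⊢
        exact ⟨mem_univ _, he.2⟩
      · intro e _ f _ hef
        rw [← X.inv_inv e, ← X.inv_inv f, hef]
      · intro e he
        rw [mem_filter] at he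
        refine ⟨X.inv e, ?_, X.inv_inv e⟩
        rw [mem_filter]
        refine ⟨mem_univ _, ?_⟩
        unfold PolyComplex.tgt
        rw [X.inv_inv]
        exact he.2
    have c3 := Finset.card_union_le (univ.filter (fun e : X.E => X.src e = v))
      (univ.filter (fun e : X.E => X.tgt e = v))
    rw [← Finset.filter_or] at c3
    have c4 : (univ.filter (fun e : X.E => X.src e = v ∨ X.tgt e = v)).card ≤ 2 * k := by omega
    exact_mod_cast c4
  calc ∑ e ∈ univ.filter (fun e : X.E => X.src e = v ∨ X.tgt e = v), X.mu1 e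
      ≤ ∑ _e ∈ univ.filter (fun e : X.E => X.src e = v ∨ X.tgt e = v),
          (((k : ℝ) + 1) / Fintype.card X.E) := Finset.sum_le_sum fun e _ => h.mu1_le e
    _ = (univ.filter (fun e : X.E => X.src e = v ∨ X.tgt e = v)).card *
          (((k : ℝ) + 1) / Fintype.card X.E) := by rw [Finset.sum_const, nsmul_eq_mul]
    _ ≤ _ := by gcongr

theorem one_le_sum_w0 : 1 ≤ ∑ v : X.V, X.w0 v := by
  classical
  have e0 : ∀ v, ∑ e ∈ univ.filter (fun e : X.E => X.src e = v), X.mu1 e ≤ X.w0 v := by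
    intro v
    unfold PolyComplex.w0
    refine Finset.sum_le_sum_of_subset_of_nonneg ?_ fun e _ _ => (h.mu1_pos e).le
    intro e he
    rw [mem_filter] at he ⊢
    exact ⟨he.1, Or.inl he.2⟩
  calc (1 : ℝ) = ∑ e : X.E, X.mu1 e := h.sum_mu1.symm
    _ = ∑ v : X.V, ∑ e ∈ univ.filter (fun e : X.E => X.src e = v), X.mu1 e := by
      rw [← Finset.sum_fiberwise univ (fun e : X.E => X.src e)]
    _ ≤ _ := Finset.sum_le_sum fun v _ => e0 v

theorem mu0_le (v : X.V) : X.mu0 v ≤ 2 * k * (k + 1) / Fintype.card X.E := by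
  have h1 := h.w0_le v
  have h2 := h.one_le_sum_w0
  have h3 := h.D_pos
  unfold PolyComplex.mu0
  rw [div_le_iff₀ (by linarith)]
  have h6 : X.w0 v ≤ 2 * k * (k + 1) / Fintype.card X.E := by
    refine h1.trans (le_of_eq ?_)
    ring
  refine h6.trans ?_
  refine le_mul_of_one_le_right (by positivity) h2

/-! ### `h_1` -/

theorem h1_ge (hα : ∀ (n : ℕ) (α : X.E → Equiv.Perm (Fin n)), X.IsCochain α →
      ∃ β : X.V → Equiv.Perm (Fin n),
        ∑ e, dh (α e) (X.δ0 β e) ≤ ∑ p, dh (X.δ1 α p 0 true) 1) :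
    ENNReal.ofReal (1 / ((k : ℝ) + 1) ^ 2) ≤ X.h1 := by
  unfold PolyComplex.h1
  refine le_iInf fun n => le_iInf fun hn => le_iInf fun α => le_iInf fun hc => le_iInf fun hB => ?_
  obtain ⟨β, hβ⟩ := hα n α hc
  have hP : (0 : ℝ) < Fintype.card X.P := by exact_mod_cast h.cardP_pos
  have hN : X.normδ1 α = (∑ p, dh (X.δ1 α p 0 true) 1) / Fintype.card X.P := by
    rw [normδ1_eq X hc]
    unfold PolyComplex.mu2
    rw [← Finset.mul_sum]
    ring
  have hPV : (Fintype.card X.P : ℝ) ≤ (k + 1) * Fintype.card X.E := by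
    have h1 : (Fintype.card X.P : ℝ) ≤ (k + 1) * Fintype.card X.V := by exact_mod_cast h.cardP
    have h2 : (Fintype.card X.V : ℝ) ≤ Fintype.card X.E := by exact_mod_cast h.cardD
    have : ((k : ℝ) + 1) * Fintype.card X.V ≤ (k + 1) * Fintype.card X.E := by gcongr
    linarith
  have hE := h.D_pos
  have hd : X.d1 α (X.δ0 β) ≤ ((k : ℝ) + 1) ^ 2 * X.normδ1 α := by
    unfold PolyComplex.d1
    calc ∑ e, X.mu1 e * dh (α e) (X.δ0 β e)
        ≤ ∑ e, ((k : ℝ) + 1) / Fintype.card X.E * dh (α e) (X.δ0 β e) :=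
          Finset.sum_le_sum fun e _ => mul_le_mul_of_nonneg_right (h.mu1_le e) (dh_nonneg _ _)
      _ = ((k : ℝ) + 1) / Fintype.card X.E * ∑ e, dh (α e) (X.δ0 β e) := by rw [Finset.mul_sum]
      _ ≤ ((k : ℝ) + 1) / Fintype.card X.E * ∑ p, dh (X.δ1 α p 0 true) 1 := by gcongr
      _ = ((k : ℝ) + 1) / Fintype.card X.E * (Fintype.card X.P * X.normδ1 α) := by
          rw [hN]
          field_simp
      _ ≤ ((k : ℝ) + 1) / Fintype.card X.E * (((k + 1) * Fintype.card X.E) * X.normδ1 α) := by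
          have : 0 ≤ X.normδ1 α := by
            rw [hN]
            exact div_nonneg (Finset.sum_nonneg fun _ _ => dh_nonneg _ _) hP.le
          gcongr
      _ = ((k : ℝ) + 1) ^ 2 * X.normδ1 α := by
          field_simp
  have hN0 : 0 ≤ X.normδ1 α := by
    rw [hN]
    exact div_nonneg (Finset.sum_nonneg fun _ _ => dh_nonneg _ _) hP.le
  have hNpos : 0 < X.normδ1 α := by
    refine lt_of_le_of_ne hN0 fun h0 => hB ?_
    refine ⟨β, ?_⟩
    rw [← h0, mul_zero] at hd
    unfold PolyComplex.d1 at hd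
    have hnn : ∀ e ∈ univ, 0 ≤ X.mu1 e * dh (α e) (X.δ0 β e) := fun e _ =>
      mul_nonneg (h.mu1_pos e).le (dh_nonneg _ _)
    have h1 := (Finset.sum_eq_zero_iff_of_nonneg hnn).1 (le_antisymm hd (Finset.sum_nonneg hnn))
    funext e
    have h2 := h1 e (mem_univ e)
    rcases mul_eq_zero.1 h2 with h3 | h3
    · exact absurd h3 (h.mu1_pos e).ne'
    · exact eq_of_dh hn h3
  refine ratio_bound (by positivity) hNpos ?_
  refine (iInf₂_le (X.δ0 β) ⟨β, rfl⟩).trans ?_
  exact ENNReal.ofReal_le_ofReal hd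

/-! ### `h_0` -/

theorem h0_ge {C : ℕ} (hC : 1 ≤ C) (hk : 1 ≤ k)
    (hexp : ∀ (m : ℕ) (g : X.V → Fin m), (univ.filter fun q : X.V × X.V => g q.1 ≠ g q.2).card ≤
      C * Fintype.card X.V * (univ.filter fun e : X.E => g (X.src e) ≠ g (X.tgt e)).card) :
    ENNReal.ofReal (1 / (2 * k * ((k : ℝ) + 1) ^ 2 * C)) ≤ X.h0 := by
  unfold PolyComplex.h0
  refine le_iInf fun n => le_iInf fun hn => le_iInf fun β => le_iInf fun hB => ?_
  have hE := h.D_pos
  have hV : (0 : ℝ) < Fintype.card X.V := by exact_mod_cast h.pos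
  have hn' : (0 : ℝ) < n := by exact_mod_cast hn
  -- averaging
  have hdouble : ∑ x : X.V, ∑ v : X.V, dh (β v) (β x) ≤
      C * Fintype.card X.V * ∑ e : X.E, dh (β (X.src e)) (β (X.tgt e)) := by
    have e1 : ∑ x : X.V, ∑ v : X.V, dh (β v) (β x) =
        (∑ j : Fin n, ((univ.filter fun q : X.V × X.V => β q.1 j ≠ β q.2 j).card : ℝ)) / n := by
      unfold dh
      simp only [Finset.card_filter, Nat.cast_sum, Finset.sum_div]
      rw [Finset.sum_comm, ← Finset.sum_product', Finset.sum_comm]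
      rfl
    have e2 : ∑ e : X.E, dh (β (X.src e)) (β (X.tgt e)) =
        (∑ j : Fin n, ((univ.filter fun e : X.E => β (X.src e) j ≠ β (X.tgt e) j).card : ℝ)) / n := by
      unfold dh
      simp only [Finset.card_filter, Nat.cast_sum, Finset.sum_div]
      rw [Finset.sum_comm]
    rw [e1, e2, ← mul_div_assoc]
    gcongr
    rw [Finset.mul_sum]
    refine Finset.sum_le_sum fun j _ => ?_
    exact_mod_cast hexp n (fun v => β v j)
  obtain ⟨x, -, hx⟩ : ∃ x ∈ (univ : Finset X.V), ∑ v : X.V, dh (β v) (β x) ≤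
      C * ∑ e : X.E, dh (β (X.src e)) (β (X.tgt e)) := by
    apply Finset.exists_le_of_sum_le
    · obtain ⟨v⟩ := Fintype.card_pos_iff.1 h.pos
      exact ⟨v, mem_univ _⟩
    · rw [Finset.sum_const, Finset.card_univ, nsmul_eq_mul]
      linarith
  have hN : (∑ e : X.E, dh (β (X.src e)) (β (X.tgt e))) ≤
      (k + 1) * Fintype.card X.E * X.normδ0 β := by
    unfold PolyComplex.normδ0 PolyComplex.d1
    rw [Finset.mul_sum]
    refine Finset.sum_le_sum fun e _ => ?_
    have h1 := h.le_mu1 e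
    have h2 : dh (X.δ0 β e) ((1 : X.E → Equiv.Perm (Fin n)) e) =
        dh (β (X.src e)) (β (X.tgt e)) := by
      unfold PolyComplex.δ0
      exact dh_inv_mul _ _
    rw [h2]
    rw [div_le_iff₀ (by positivity)] at h1
    have h3 := dh_nonneg (β (X.src e)) (β (X.tgt e))
    nlinarith
  have hN0 : 0 ≤ X.normδ0 β := by
    unfold PolyComplex.normδ0 PolyComplex.d1
    exact Finset.sum_nonneg fun e _ => mul_nonneg (h.mu1_pos e).le (dh_nonneg _ _)
  have hNpos : 0 < X.normδ0 β := by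
    refine lt_of_le_of_ne hN0 fun h0 => hB ⟨β x, fun v => ?_⟩
    rw [← h0, mul_zero] at hN
    have h2 : ∑ v : X.V, dh (β v) (β x) ≤ 0 := by
      refine hx.trans ?_
      have : (0 : ℝ) ≤ C := by positivity
      nlinarith
    have h3 := (Finset.sum_eq_zero_iff_of_nonneg fun v _ => dh_nonneg (β v) (β x)).1
      (le_antisymm h2 (Finset.sum_nonneg fun v _ => dh_nonneg _ _))
    exact eq_of_dh hn (h3 v (mem_univ v))
  have hCpos : (0 : ℝ) < C := by exact_mod_cast hC
  have hkpos : (0 : ℝ) < k := by exact_mod_cast hk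
  refine ratio_bound (by positivity) hNpos ?_
  refine (iInf₂_le (fun _ => β x) ⟨β x, fun _ => rfl⟩).trans ?_
  apply ENNReal.ofReal_le_ofReal
  unfold PolyComplex.d0
  calc ∑ v, X.mu0 v * dh (β v) (β x)
      ≤ ∑ v, 2 * k * (k + 1) / Fintype.card X.E * dh (β v) (β x) :=
        Finset.sum_le_sum fun v _ => mul_le_mul_of_nonneg_right (h.mu0_le v) (dh_nonneg _ _)
    _ = 2 * k * (k + 1) / Fintype.card X.E * ∑ v, dh (β v) (β x) := by rw [Finset.mul_sum]
    _ ≤ 2 * k * (k + 1) / Fintype.card X.E * (C * ((k + 1) * Fintype.card X.E * X.normδ0 β)) := by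
        have : ∑ v, dh (β v) (β x) ≤ C * ((k + 1) * Fintype.card X.E * X.normδ0 β) :=
          hx.trans (by gcongr)
        gcongr
    _ = 2 * k * ((k : ℝ) + 1) ^ 2 * C * X.normδ0 β := by
        field_simp

end Wt

end Helper84K9.PC
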