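import Mathlib

/-!
# Potentials on trees, and the closed path of a chord
-/

set_option autoImplicit false

namespace Helper84K9.PC

open SimpleGraph

variable {V : Type} {Γ : Type} [Group Γ]

/-- the product of `a` along a walk -/
def wp {T : SimpleGraph V} (a : V → V → Γ) : {u v : V} → T.Walk u v → Γ
  | _, _, .nil => 1
  | u, _, .cons (v := v) _ p => a u v * wp a p

theorem wp_append {T : SimpleGraph V} (a : V → V → Γ) {u v w : V} (p : T.Walk u v)
    (q : T.Walk v w) : wp a (p.append q) = wp a p * wp a q := by
  induction p with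
  | nil => simp [wp]
  | cons h p ih => simp [wp, ih, mul_assoc]

theorem exists_potential {T : SimpleGraph V} (hT : T.IsTree) (a : V → V → Γ)
    (ha : ∀ x y, a y x = (a x y)⁻¹) :
    ∃ β : V → Γ, ∀ x y, T.Adj x y → a x y = (β x)⁻¹ * β y := by
  classical
  obtain ⟨r⟩ := hT.connected.nonempty
  choose P hP using fun v => hT.existsUnique_path r v
  refine ⟨fun v => wp a (P v), fun x y h => ?_⟩
  by_cases hy : y ∈ (P x).support
  · have h1 : (P x).takeUntil y hy = P y := (hP y).2 _ ((hP x).1.takeUntil hy)
    have h2 : (P x).dropUntil y hy = Walk.cons h.symm Walk.nil := by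
      obtain ⟨q, -, hq⟩ := hT.existsUnique_path y x
      rw [hq _ ((hP x).1.dropUntil hy), hq (Walk.cons h.symm Walk.nil)]
      simp [h.ne.symm]
    have h3 : wp a (P x) = wp a (P y) * a y x := by
      conv_lhs => rw [← (P x).take_spec hy]
      rw [wp_append, h1, h2]
      simp [wp]
    simp only
    rw [h3, ha x y]
    group
  · have h1 : (P x).concat h = P y := (hP y).2 _ ((hP x).1.concat hy h)
    have h2 : wp a (P y) = wp a (P x) * a x y := by
      rw [← h1, Walk.concat_eq_append, wp_append]
      simp [wp]
    simp only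
    rw [h2]
    group

/-- **The closed path of a chord**: in a tree `T`, two distinct vertices `u`, `v` which are not
adjacent are consecutive in a closed sequence of distinct vertices in which all other pairs of
consecutive vertices are adjacent. -/
theorem exists_chord {T : SimpleGraph V} (hT : T.IsTree) {u v : V} (huv : u ≠ v)
    (hna : ¬ T.Adj u v) :
    ∃ m : ℕ, 2 ≤ m ∧ ∃ y : ℕ → V, y 0 = u ∧ y 1 = v ∧ y (m + 1) = u ∧
      (∀ j, 1 ≤ j → j ≤ m → T.Adj (y j) (y (j + 1))) ∧
      ∀ i j, i < m + 1 → j < m + 1 → y i = y j → i = j := by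
  obtain ⟨p, hp, -⟩ := hT.existsUnique_path v u
  have hlen : 2 ≤ p.length := by
    have h0 : p.length ≠ 0 := fun h => huv (Walk.eq_of_length_eq_zero h).symm
    have h1 : p.length ≠ 1 := fun h => hna (Walk.adj_of_length_eq_one h).symm
    omega
  refine ⟨p.length, hlen, fun j => match j with | 0 => u | j + 1 => p.getVert j, rfl, ?_, ?_, ?_, ?_⟩
  · simp
  · simp
  · intro j h1 h2
    obtain ⟨j, rfl⟩ : ∃ i, j = i + 1 := ⟨j - 1, by omega⟩
    exact p.adj_getVert_succ (by omega)
  · have hinj := hp.getVert_injOn
    have key : ∀ i j, i < p.length → j < p.length → p.getVert i = p.getVert j → i = j :=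
      fun i j hi hj h => hinj (by simp; omega) (by simp; omega) h
    have key2 : ∀ i, i < p.length → p.getVert i ≠ u := by
      intro i hi h
      have h1 : p.getVert i = p.getVert p.length := by rw [h, Walk.getVert_length]
      have := hinj (by simp; omega) (by simp) h1
      omega
    intro i j hi hj h
    match i, j with
    | 0, 0 => rfl
    | 0, j + 1 => exact absurd h.symm (key2 j (by omega))
    | i + 1, 0 => exact absurd h (key2 i (by omega))
    | i + 1, j + 1 => rw [key i j (by omega) (by omega) h]

end Helper84K9.PC
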