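import Pool.Agent.Helper84K9.PC.Ham
import Pool.Agent.Helper84K9.PC.Tree
import Pool.Agent.X76.Euler

/-!
# The complex of a graph: chords of a spanning tree and copies of an Eulerian circuit
-/

set_option autoImplicit false

namespace Helper84K9.PC

open SimpleGraph Finset

variable {V : Type} [Fintype V] [DecidableEq V]

/-- a cyclically reduced closed path in a simple graph -/
structure Cyc (G : SimpleGraph V) where
  N : ℕ
  pos : 0 < N
  Y : ZMod N → V
  adj : ∀ s, G.Adj (Y s) (Y (s + 1))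
  red : ∀ s, Y (s + 1 + 1) ≠ Y s

/-- the polygonal complex with given attaching paths -/
def ofCyc (G : SimpleGraph V) [DecidableRel G.Adj] (P : Type) [hP : Fintype P] (c : P → Cyc G) :
    PolyComplex where
  V := V
  E := G.Dart
  P := P
  finV := inferInstance
  finE := inferInstance
  finP := hP
  src e := e.fst
  inv := Dart.symm
  inv_inv := Dart.symm_symm
  inv_ne := Dart.symm_ne
  len p := (c p).N
  len_pos p := (c p).pos
  bd p s := ⟨((c p).Y s, (c p).Y (s + 1)), (c p).adj s⟩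
  closed _ _ := rfl
  reduced p s h := (c p).red s (congrArg (fun d : G.Dart => d.snd) h)

variable {G : SimpleGraph V} [DecidableRel G.Adj]

omit [Fintype V] [DecidableEq V] [DecidableRel G.Adj] in
/-- the cycle of a chord of a tree -/
theorem exists_cyc {T : SimpleGraph V} (hT : T.IsTree) (hTG : T ≤ G) (d : G.Dart)
    (hd : ¬ T.Adj d.fst d.snd) :
    ∃ c : Cyc G, c.Y 0 = d.fst ∧ c.Y 1 = d.snd ∧
      ∀ j : ℕ, 1 ≤ j → j < c.N → T.Adj (c.Y j) (c.Y (j + 1)) := by
  obtain ⟨m, hm, y, h0, h1, h2, h3, h4⟩ := exists_chord hT d.adj.ne hd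
  have : NeZero (m + 1) := ⟨by omega⟩
  have hy : ∀ s : ZMod (m + 1), y (s + 1).val = y (s.val + 1) := by
    intro s
    rw [Pool.Agent.X76.Euler.val_succ]
    split_ifs with h
    · rw [h, h0, h2]
    · rfl
  have hadj : ∀ j, j ≤ m → G.Adj (y j) (y (j + 1)) := by
    intro j hj
    rcases Nat.eq_zero_or_pos j with rfl | hj0
    · rw [h0, zero_add, h1]
      exact d.adj
    · exact hTG (h3 j hj0 hj)
  refine ⟨⟨m + 1, by omega, fun s => y s.val, ?_, ?_⟩, ?_, ?_, ?_⟩
  · intro s
    have hs := ZMod.val_lt s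
    simp only [hy]
    exact hadj _ (by omega)
  · intro s h
    have e := h4 _ _ (ZMod.val_lt _) (ZMod.val_lt _) h
    have e2 := ZMod.val_injective _ e
    have e3 : (2 : ZMod (m + 1)) = 0 := by linear_combination e2
    have e4 : ((2 : ℕ) : ZMod (m + 1)) = 0 := by exact_mod_cast e3
    rw [ZMod.natCast_eq_zero_iff] at e4
    have := Nat.le_of_dvd (by omega) e4
    omega
  · simp [h0]
  · have : (1 : ZMod (m + 1)).val = 1 := by
      rw [ZMod.val_one_eq_one_mod, Nat.mod_eq_of_lt (by omega)]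
    simp only [this, h1]
  · intro j hj1 hj2
    simp only at hj2
    have e1 : ((j : ℕ) : ZMod (m + 1)).val = j := by
      rw [ZMod.val_natCast, Nat.mod_eq_of_lt hj2]
    simp only [hy, e1]
    exact h3 j hj1 (by omega)

/-- the Eulerian circuit -/
theorem exists_tourCyc (hconn : G.Connected) (heven : ∀ v, Even (G.degree v))
    (hne : ∃ a b, G.Adj a b) :
    ∃ c : Cyc G, ∀ d : G.Dart, ∃ s : ZMod c.N, (c.Y s = d.fst ∧ c.Y (s + 1) = d.snd) ∨
      (c.Y s = d.snd ∧ c.Y (s + 1) = d.fst) := by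
  obtain ⟨N, hN, τ, h1, h2⟩ := Pool.Agent.X76.Euler.exists_tour G hconn heven hne
  refine ⟨⟨N, Nat.pos_of_ne_zero hN.ne, τ, h1, ?_⟩, ?_⟩
  · intro s h
    obtain ⟨t, -, ht⟩ := h2 _ _ (h1 s)
    have e1 := ht s rfl
    have e2 := ht (s + 1) (by
      show s(τ (s + 1), τ (s + 1 + 1)) = s(τ s, τ (s + 1))
      rw [h]; exact Sym2.eq_swap)
    have e3 : s + 1 = s := e2.trans e1.symm
    have := h1 s
    rw [e3] at this
    exact this.ne rfl
  · intro d
    obtain ⟨s, hs, -⟩ := h2 _ _ d.adj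
    refine ⟨s, ?_⟩
    simp only [Sym2.eq_iff] at hs
    exact hs

end Helper84K9.PC
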