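import Mathlib

/-!
# Finite polygonal complexes and their Cheeger constants with permutation coefficients
-/

set_option autoImplicit false

namespace Helper84K9.PC

open scoped ENNReal

/-- A finite polygonal complex: a finite graph with vertex set `V` and set `E` of oriented edges
(`src e` is the origin of `e` and `inv e` the opposite oriented edge; loops and parallel edges are
allowed) and a finite set `P` of polygons; the polygon `p` of perimeter `len p` is attached along the
closed path `bd p 0, bd p 1, ..., bd p (len p - 1)` (indices modulo `len p`), which is cyclically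
reduced. -/
structure PolyComplex where
  V : Type
  E : Type
  P : Type
  finV : Fintype V
  finE : Fintype E
  finP : Fintype P
  src : E → V
  inv : E → E
  inv_inv : ∀ e, inv (inv e) = e
  inv_ne : ∀ e, inv e ≠ e
  len : P → ℕ
  len_pos : ∀ p, 0 < len p
  bd : (p : P) → ZMod (len p) → E
  closed : ∀ p i, src (inv (bd p i)) = src (bd p (i + 1))
  reduced : ∀ p i, bd p (i + 1) ≠ inv (bd p i)

namespace PolyComplex

attribute [instance] finV finE finP

variable (X : PolyComplex)

/-- the end of an oriented edge -/
def tgt (e : X.E) : X.V := X.src (X.inv e)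

/-- `X` is connected: it has a vertex and any two vertices are joined by a path of edges -/
def Connected : Prop :=
  Nonempty X.V ∧ ∀ v w : X.V, Relation.ReflTransGen (fun a b => ∃ e, X.src e = a ∧ X.tgt e = b) v w

/-- the number of edges at a vertex (a loop counts twice) -/
noncomputable def degree (v : X.V) : ℕ := Nat.card {e : X.E // X.src e = v}

/-- An isomorphism of polygonal complexes: bijections between the vertices, the oriented edges and the
polygons that respect origins and inverses, and carry the attaching path of each polygon to that of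
its image up to a cyclic shift and a change of direction. -/
structure Iso (X Y : PolyComplex) where
  onV : X.V ≃ Y.V
  onE : X.E ≃ Y.E
  onP : X.P ≃ Y.P
  src : ∀ e, Y.src (onE e) = onV (X.src e)
  inv : ∀ e, Y.inv (onE e) = onE (X.inv e)
  len : ∀ p, Y.len (onP p) = X.len p
  bd : ∀ p, ∃ s : ℤ, (∀ i : ℤ, Y.bd (onP p) ((s + i : ℤ) : ZMod _) = onE (X.bd p (i : ZMod _))) ∨
    (∀ i : ℤ, Y.bd (onP p) ((s - i : ℤ) : ZMod _) = onE (X.inv (X.bd p (i : ZMod _))))

/-! ### The probability distributions -/

open Classical in
/-- the measure of a polygon: the uniform distribution on the polygons -/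
noncomputable def mu2 (_p : X.P) : ℝ := 1 / (Fintype.card X.P : ℝ)

open Classical in
/-- the sum of the measures of the polygons containing the edge `e` -/
noncomputable def w1 (e : X.E) : ℝ :=
  ∑ p ∈ Finset.univ.filter (fun p : X.P => ∃ i, X.bd p i = e ∨ X.bd p i = X.inv e), X.mu2 p

open Classical in
/-- the probability distribution on the oriented edges: the mass of `e` is proportional to the sum of
the measures of the polygons containing it -/
noncomputable def mu1 (e : X.E) : ℝ := X.w1 e / ∑ f : X.E, X.w1 f

open Classical in
/-- the sum of the measures of the edges containing the vertex `v` -/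
noncomputable def w0 (v : X.V) : ℝ :=
  ∑ e ∈ Finset.univ.filter (fun e : X.E => X.src e = v ∨ X.tgt e = v), X.mu1 e

open Classical in
/-- the probability distribution on the vertices: the mass of `v` is proportional to the sum of the
measures of the edges containing it -/
noncomputable def mu0 (v : X.V) : ℝ := X.w0 v / ∑ w : X.V, X.w0 w

/-! ### Cochains with permutation coefficients -/

/-- the normalized Hamming distance on `Sym(n)` -/
noncomputable def dh {n : ℕ} (σ τ : Equiv.Perm (Fin n)) : ℝ :=
  ((Finset.univ.filter fun j => σ j ≠ τ j).card : ℝ) / n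

variable {n : ℕ}

/-- the distance of two `0`-cochains -/
noncomputable def d0 (β γ : X.V → Equiv.Perm (Fin n)) : ℝ := ∑ v, X.mu0 v * dh (β v) (γ v)

/-- the distance of two `1`-cochains -/
noncomputable def d1 (α γ : X.E → Equiv.Perm (Fin n)) : ℝ := ∑ e, X.mu1 e * dh (α e) (γ e)

/-- `α` is a `1`-cochain -/
def IsCochain (α : X.E → Equiv.Perm (Fin n)) : Prop := ∀ e, α (X.inv e) = (α e)⁻¹

/-- the coboundary of a `0`-cochain -/
def δ0 (β : X.V → Equiv.Perm (Fin n)) (e : X.E) : Equiv.Perm (Fin n) :=
  (β (X.src e))⁻¹ * β (X.tgt e)

/-- The oriented polygon given by the polygon `p`, the starting point `i` and the direction `b` is the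
closed path `opath p i b 0, opath p i b 1, ..., opath p i b (len p - 1)`. -/
def opath (p : X.P) (i : ZMod (X.len p)) (b : Bool) (j : ℕ) : X.E :=
  if b then X.bd p (i + j) else X.inv (X.bd p (i - 1 - j))

/-- the coboundary of a `1`-cochain `α`, at the oriented polygon given by `p`, `i` and `b`: the
product of the values of `α` along the path -/
def δ1 (α : X.E → Equiv.Perm (Fin n)) (p : X.P) (i : ZMod (X.len p)) (b : Bool) :
    Equiv.Perm (Fin n) :=
  ((List.range (X.len p)).map fun j => α (X.opath p i b j)).prod

/-- the norm of the coboundary of the `0`-cochain `β` -/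
noncomputable def normδ0 (β : X.V → Equiv.Perm (Fin n)) : ℝ := X.d1 (X.δ0 β) 1

/-- the norm of the coboundary of the `1`-cochain `α`: the mean of the distance of its values from the
identity, over a random polygon and a random one of its `2 * len p` orientations -/
noncomputable def normδ1 (α : X.E → Equiv.Perm (Fin n)) : ℝ :=
  ∑ p, X.mu2 p * ((∑ i : Fin (X.len p), ∑ b : Bool, dh (X.δ1 α p (i.val : ZMod _) b) 1) /
    (2 * X.len p))

/-- the constant `0`-cochains -/
def B0 (n : ℕ) : Set (X.V → Equiv.Perm (Fin n)) := {β | ∃ c, ∀ v, β v = c}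

/-- the coboundaries -/
def B1 (n : ℕ) : Set (X.E → Equiv.Perm (Fin n)) := {α | ∃ β, α = X.δ0 β}

/-- the Cheeger constant `h_0` with permutation coefficients -/
noncomputable def h0 : ℝ≥0∞ :=
  ⨅ (n : ℕ) (_ : 1 ≤ n) (β : X.V → Equiv.Perm (Fin n)) (_ : β ∉ X.B0 n),
    ENNReal.ofReal (X.normδ0 β) / ⨅ γ ∈ X.B0 n, ENNReal.ofReal (X.d0 β γ)

/-- the Cheeger constant `h_1` with permutation coefficients -/
noncomputable def h1 : ℝ≥0∞ :=
  ⨅ (n : ℕ) (_ : 1 ≤ n) (α : X.E → Equiv.Perm (Fin n)) (_ : X.IsCochain α) (_ : α ∉ X.B1 n),
    ENNReal.ofReal (X.normδ1 α) / ⨅ γ ∈ X.B1 n, ENNReal.ofReal (X.d1 α γ)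

end PolyComplex

end Helper84K9.PC
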