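import Pool.Agent.H243R3.PCP.Xr

/-!
# Simple expanders with even degrees
-/

set_option autoImplicit false

namespace Helper84K9.PC

open Finset SimpleGraph Pool.Agent.H243R3.PCP

/-- the number of pairs on which `g` is not constant -/
def al {V S : Type} [Fintype V] [DecidableEq S] (g : V → S) : ℕ :=
  (univ.filter fun q : V × V => g q.1 ≠ g q.2).card

/-- the number of adjacent pairs on which `g` is not constant -/
def bi {V S : Type} [Fintype V] [DecidableEq S] (G : SimpleGraph V) [DecidableRel G.Adj]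
    (g : V → S) : ℕ :=
  (univ.filter fun q : V × V => G.Adj q.1 q.2 ∧ g q.1 ≠ g q.2).card

theorem connected_of_al {V : Type} [Fintype V] [Nonempty V] (G : SimpleGraph V)
    [DecidableRel G.Adj] (C : ℕ) (h : ∀ g : V → Fin 2, al g ≤ C * Fintype.card V * bi G g) :
    G.Connected := by
  classical
  obtain ⟨v⟩ := ‹Nonempty V›
  have key : ∀ w, G.Reachable v w := by
    by_contra hcon
    push Not at hcon
    obtain ⟨w, hw⟩ := hcon
    let g : V → Fin 2 := fun x => if G.Reachable v x then 0 else 1
    have h1 : bi G g = 0 := by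
      unfold bi
      rw [Finset.card_eq_zero, Finset.filter_eq_empty_iff]
      rintro ⟨x, y⟩ - ⟨hxy, hg⟩
      apply hg
      simp only [g]
      simp only at hxy
      have : G.Reachable v x ↔ G.Reachable v y :=
        ⟨fun h => h.trans hxy.reachable, fun h => h.trans hxy.symm.reachable⟩
      simp only [this]
    have h2 := h g
    rw [h1, mul_zero] at h2
    have h3 : 0 < al g := by
      unfold al
      rw [Finset.card_pos]
      refine ⟨(v, w), ?_⟩
      rw [mem_filter]
      refine ⟨mem_univ _, ?_⟩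
      simp only [g, if_pos (Reachable.refl v), if_neg hw]
      decide
    omega
  rw [connected_iff]
  exact ⟨fun x y => (key x).symm.trans (key y), ⟨v⟩⟩

/-- the base graph -/
def Bg (c : ℕ) : SimpleGraph (Fin c) where
  Adj u v := u ≠ v ∧ ∃ l < 32, (xrot c u.val l).1 = v.val
  symm := ⟨by
    rintro u v ⟨h1, l, hl, h2⟩
    refine ⟨h1.symm, (xrot c u.val l).2, (xrot_lt u.2 hl).2, ?_⟩
    rw [← h2, xrot_xrot u.2 hl]⟩
  loopless := ⟨fun u h => h.1 rfl⟩

instance (c : ℕ) : DecidableRel (Bg c).Adj := fun u v =>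
  inferInstanceAs (Decidable (u ≠ v ∧ ∃ l < 32, (xrot c u.val l).1 = v.val))

theorem Bg_degree (c : ℕ) (v : Fin c) : (Bg c).degree v ≤ 32 := by
  rw [← card_neighborFinset_eq_degree]
  have h1 : ((Bg c).neighborFinset v).image (fun w => w.val) ⊆
      (range 32).image fun l => (xrot c v.val l).1 := by
    intro w hw
    rw [mem_image] at hw
    obtain ⟨w, hw, rfl⟩ := hw
    rw [mem_neighborFinset] at hw
    obtain ⟨-, l, hl, h2⟩ := hw
    rw [mem_image]
    exact ⟨l, mem_range.2 hl, h2⟩
  have h2 := Finset.card_le_card h1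
  rw [Finset.card_image_of_injective _ Fin.val_injective] at h2
  exact h2.trans (Finset.card_image_le.trans (by simp))

/-- the Poincaré inequality for sets -/
theorem set_poincare {c : ℕ} (hc : 1 ≤ c) (A : Finset (Fin c)) :
    ((A.card * (univ \ A).card : ℕ) : ℝ) ≤ 104 * c * ∑ j : Fin c, ∑ l ∈ range 32,
      (if ∃ w ∈ A, w.val = (xrot c j.val l).1 then if j ∈ A then (0 : ℝ) else 1 else
        if j ∈ A then 1 else 0) := by
  classical
  let f : ℕ → ℝ := fun x => if ∃ w ∈ A, w.val = x then 1 else 0
  obtain ⟨m, hm⟩ := poincare_x c hc f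
  have hc' : (0 : ℝ) < c := by exact_mod_cast hc
  have hf : ∀ j : Fin c, f j.val = if j ∈ A then 1 else 0 := by
    intro j
    simp only [f]
    congr 1
    apply propext
    constructor
    · rintro ⟨w, hw, h⟩
      rwa [← Fin.ext h]
    · intro h
      exact ⟨j, h, rfl⟩
  have hL : ∑ j ∈ range c, (f j - m) ^ 2 = A.card * (1 - m) ^ 2 + (univ \ A).card * m ^ 2 := by
    rw [Finset.sum_range]
    have e1 : ∀ j : Fin c, (f j.val - m) ^ 2 = if j ∈ A then (1 - m) ^ 2 else m ^ 2 := by
      intro j
      rw [hf]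
      split_ifs <;> ring
    rw [Finset.sum_congr rfl fun j _ => e1 j, Finset.sum_ite, Finset.sum_const, Finset.sum_const,
      nsmul_eq_mul, nsmul_eq_mul]
    congr 3
    · congr 1
      ext j
      simp
    · congr 1
      ext j
      simp
  have hR : ∑ j ∈ range c, ∑ l ∈ range 32, (f (xrot c j l).1 - f j) ^ 2 =
      ∑ j : Fin c, ∑ l ∈ range 32,
      (if ∃ w ∈ A, w.val = (xrot c j.val l).1 then if j ∈ A then (0 : ℝ) else 1 else
        if j ∈ A then 1 else 0) := by
    rw [Finset.sum_range]
    refine Finset.sum_congr rfl fun j _ => Finset.sum_congr rfl fun l _ => ?_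
    rw [hf]
    simp only [f]
    split_ifs <;> norm_num
  rw [hR, hL] at hm
  have hcard : (A.card : ℝ) + (univ \ A).card = c := by
    have h1 := Finset.card_sdiff_add_card_eq_card (Finset.subset_univ A)
    rw [Finset.card_univ, Fintype.card_fin] at h1
    have h2 : A.card + (univ \ A).card = c := by omega
    exact_mod_cast h2
  push_cast
  set a : ℝ := (A.card : ℝ)
  set b : ℝ := ((univ \ A).card : ℝ)
  have h3 : a * b ≤ c * (a * (1 - m) ^ 2 + b * m ^ 2) := by
    rw [← hcard]
    nlinarith [sq_nonneg (a * (1 - m) - b * m)]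
  calc a * b ≤ c * (a * (1 - m) ^ 2 + b * m ^ 2) := h3
    _ ≤ c * (104 * ∑ j : Fin c, ∑ l ∈ range 32,
      (if ∃ w ∈ A, w.val = (xrot c j.val l).1 then if j ∈ A then (0 : ℝ) else 1 else
        if j ∈ A then 1 else 0)) := by gcongr
    _ = _ := by ring

end Helper84K9.PC
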