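import Pool.Agent.Helper84K9.PC.Exp

/-!
# Simple expanders with even degrees: the inequality for functions, and the doubled graph
-/

set_option autoImplicit false

namespace Helper84K9.PC

open Finset SimpleGraph Pool.Agent.H243R3.PCP

theorem al_le {c : ℕ} (hc : 1 ≤ c) {S : Type} [Fintype S] [DecidableEq S] (g : Fin c → S) :
    al g ≤ 6656 * c * bi (Bg c) g := by
  classical
  have h1 : ((al g : ℕ) : ℝ) = ∑ s : S, (((univ.filter fun u => g u = s).card *
      (univ \ (univ.filter fun u => g u = s)).card : ℕ) : ℝ) := by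
    unfold al
    rw [← Nat.cast_sum]
    congr 1
    rw [Finset.card_eq_sum_card_fiberwise (f := fun q : Fin c × Fin c => g q.1) (t := univ)
      (fun _ _ => by simp)]
    refine Finset.sum_congr rfl fun s _ => ?_
    rw [← Finset.card_product]
    congr 1
    ext ⟨u, v⟩
    simp only [mem_filter, mem_univ, true_and, mem_product, mem_sdiff]
    constructor
    · rintro ⟨h1, h2⟩
      exact ⟨h2, fun h => h1 (h2.trans h.symm)⟩
    · rintro ⟨h1, h2⟩
      exact ⟨fun h => h2 (h ▸ h1), h1⟩
  have h2 : ∑ s : S, ∑ j : Fin c, ∑ l ∈ range 32,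
      (if ∃ w ∈ (univ.filter fun u => g u = s), w.val = (xrot c j.val l).1 then
        if j ∈ (univ.filter fun u => g u = s) then (0 : ℝ) else 1 else
        if j ∈ (univ.filter fun u => g u = s) then 1 else 0) ≤ 64 * (bi (Bg c) g : ℕ) := by
    have hbi : ((bi (Bg c) g : ℕ) : ℝ) =
        ∑ j : Fin c, ((univ.filter fun v => (Bg c).Adj j v ∧ g j ≠ g v).card : ℝ) := by
      unfold bi
      rw [Finset.card_eq_sum_card_fiberwise (f := fun q : Fin c × Fin c => q.1) (t := univ)
        (fun _ _ => by simp)]
      push_cast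
      refine Finset.sum_congr rfl fun j _ => ?_
      congr 1
      refine Finset.card_bij (fun q _ => q.2) ?_ ?_ ?_
      · rintro ⟨a, b⟩ h
        simp only [mem_filter, mem_univ, true_and] at h ⊢
        obtain ⟨h1, rfl⟩ := h
        exact h1
      · rintro ⟨a, b⟩ h ⟨a', b'⟩ h' e
        simp only [mem_filter, mem_univ, true_and] at h h' e
        rw [h.2, h'.2, e]
      · intro b hb
        simp only [mem_filter, mem_univ, true_and] at hb
        exact ⟨(j, b), by simp only [mem_filter, mem_univ, true_and]; exact ⟨hb, trivial⟩, rfl⟩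
    rw [hbi, Finset.mul_sum, Finset.sum_comm]
    refine Finset.sum_le_sum fun j _ => ?_
    rw [Finset.sum_comm]
    have h3 : ∀ l ∈ range 32, ∑ s : S,
      (if ∃ w ∈ (univ.filter fun u => g u = s), w.val = (xrot c j.val l).1 then
        if j ∈ (univ.filter fun u => g u = s) then (0 : ℝ) else 1 else
        if j ∈ (univ.filter fun u => g u = s) then 1 else 0) ≤
        2 * ((univ.filter fun v => (Bg c).Adj j v ∧ g j ≠ g v).card : ℝ) := by
      intro l hl
      rw [mem_range] at hl
      have hlt := (xrot_lt j.2 hl).1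
      let w : Fin c := ⟨(xrot c j.val l).1, hlt⟩
      have e1 : ∀ s, (∃ w ∈ (univ.filter fun u => g u = s), w.val = (xrot c j.val l).1) ↔ g w = s := by
        intro s
        constructor
        · rintro ⟨w', h1, h2⟩
          rw [mem_filter] at h1
          have : w' = w := Fin.ext h2
          rw [← this]
          exact h1.2
        · intro h
          exact ⟨w, by rw [mem_filter]; exact ⟨mem_univ _, h⟩, rfl⟩
      simp only [e1]
      simp only [mem_filter, mem_univ, true_and]
      by_cases hgw : g j = g w
      · rw [Finset.sum_eq_zero]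
        · positivity
        · intro s _
          rw [← hgw]
          split_ifs <;> rfl
      · have e2 : ∀ s, (if g w = s then if g j = s then (0 : ℝ) else 1 else if g j = s then 1 else 0) =
            (if g w = s then 1 else 0) + (if g j = s then 1 else 0) := by
          intro s
          by_cases h1 : g w = s
          · have h2 : ¬ g j = s := fun h => hgw (h.trans h1.symm)
            simp [h1, h2]
          · simp [h1]
        simp only [e2, Finset.sum_add_distrib, Finset.sum_ite_eq, mem_univ, if_true]
        have h4 : 1 ≤ (univ.filter fun v => (Bg c).Adj j v ∧ g j ≠ g v).card := by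
          rw [Nat.one_le_iff_ne_zero, ← Nat.pos_iff_ne_zero, Finset.card_pos]
          refine ⟨w, ?_⟩
          rw [mem_filter]
          refine ⟨mem_univ _, ⟨fun h => hgw (by rw [h]), l, hl, rfl⟩, hgw⟩
        have h5 : (1 : ℝ) ≤ ((univ.filter fun v => (Bg c).Adj j v ∧ g j ≠ g v).card : ℝ) := by
          exact_mod_cast h4
        linarith
    calc _ ≤ ∑ _l ∈ range 32, 2 * ((univ.filter fun v => (Bg c).Adj j v ∧ g j ≠ g v).card : ℝ) :=
          Finset.sum_le_sum h3
      _ = _ := by
        rw [Finset.sum_const, card_range, nsmul_eq_mul]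
        push_cast
        ring
  have h3 : ((al g : ℕ) : ℝ) ≤ 104 * c * (64 * (bi (Bg c) g : ℕ)) := by
    rw [h1]
    calc _ ≤ ∑ s : S, 104 * (c : ℝ) * ∑ j : Fin c, ∑ l ∈ range 32,
          (if ∃ w ∈ (univ.filter fun u => g u = s), w.val = (xrot c j.val l).1 then
            if j ∈ (univ.filter fun u => g u = s) then (0 : ℝ) else 1 else
            if j ∈ (univ.filter fun u => g u = s) then 1 else 0) :=
          Finset.sum_le_sum fun s _ => set_poincare hc _
      _ ≤ _ := by
        rw [← Finset.mul_sum]
        gcongr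
  have h4 : ((al g : ℕ) : ℝ) ≤ ((6656 * c * bi (Bg c) g : ℕ) : ℝ) := by
    push_cast
    linarith
  exact_mod_cast h4

theorem Bg_connected {c : ℕ} (hc : 1 ≤ c) : (Bg c).Connected := by
  have : Nonempty (Fin c) := ⟨⟨0, hc⟩⟩
  refine connected_of_al (Bg c) 6656 fun g => ?_
  rw [Fintype.card_fin]
  exact al_le hc g

theorem Bg_neighbor {c : ℕ} (hc : 2 ≤ c) (v : Fin c) : ∃ w, (Bg c).Adj v w := by
  have : Nontrivial (Fin c) := Fin.nontrivial_iff_two_le.2 hc
  have h := (Bg_connected (by omega : 1 ≤ c)).preconnected.degree_pos_of_nontrivial v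
  rw [degree_pos_iff_exists_adj] at h
  exact h

/-- the doubled graph -/
def Dg (c : ℕ) : SimpleGraph (Fin c × Bool) := (Bg c).comap Prod.fst

instance (c : ℕ) : DecidableRel (Dg c).Adj := fun u v =>
  inferInstanceAs (Decidable ((Bg c).Adj u.1 v.1))

theorem Dg_adj {c : ℕ} (u v : Fin c × Bool) : (Dg c).Adj u v ↔ (Bg c).Adj u.1 v.1 := Iff.rfl

theorem Dg_degree (c : ℕ) (v : Fin c × Bool) : (Dg c).degree v = (Bg c).degree v.1 * 2 := by
  rw [← card_neighborFinset_eq_degree, ← card_neighborFinset_eq_degree]
  have h : (Dg c).neighborFinset v = (Bg c).neighborFinset v.1 ×ˢ (univ : Finset Bool) := by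
    ext ⟨w, b⟩
    simp only [mem_neighborFinset, mem_product, mem_univ, and_true, Dg_adj]
  rw [h, Finset.card_product]
  simp

end Helper84K9.PC
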