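import Pool.Agent.Helper84K9.PC.Exp2

/-!
# Simple expanders with even degrees: the inequality for the doubled graph
-/

set_option autoImplicit false

namespace Helper84K9.PC

open Finset SimpleGraph

section

variable {c : ℕ} {S : Type} [DecidableEq S] (g : Fin c × Bool → S)

/-- the number of pairs with distinct values in the copies `a`, `b` -/
def T (a b : Bool) : ℕ := ∑ u : Fin c, ∑ v : Fin c, if g (u, a) ≠ g (v, b) then 1 else 0

/-- the number of adjacent pairs with distinct values in the copies `a`, `b` -/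
def M (a b : Bool) : ℕ :=
  ∑ u : Fin c, ∑ v : Fin c, if (Bg c).Adj u v ∧ g (u, a) ≠ g (v, b) then 1 else 0

theorem al_eq : al g = (T g true true + T g true false) + (T g false true + T g false false) := by
  unfold al T
  rw [Finset.card_filter, Fintype.sum_prod_type, Fintype.sum_prod_type]
  simp only [Fintype.sum_prod_type, Fintype.sum_bool, Finset.sum_add_distrib]
  ring

theorem bi_eq : bi (Dg c) g =
    (M g true true + M g true false) + (M g false true + M g false false) := by
  unfold bi M
  rw [Finset.card_filter, Fintype.sum_prod_type, Fintype.sum_prod_type]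
  simp only [Fintype.sum_prod_type, Fintype.sum_bool, Finset.sum_add_distrib, Dg_adj]
  ring

theorem T_diag [Fintype S] (hc : 1 ≤ c) (a : Bool) : T g a a ≤ 6656 * c * M g a a := by
  have h := al_le hc (fun v => g (v, a))
  have e1 : al (fun v => g (v, a)) = T g a a := by
    unfold al T
    rw [Finset.card_filter, Fintype.sum_prod_type]
  have e2 : bi (Bg c) (fun v => g (v, a)) = M g a a := by
    unfold bi M
    rw [Finset.card_filter, Fintype.sum_prod_type]
  rwa [e1, e2] at h

theorem T_off (hc : 2 ≤ c) (a b : Bool) : T g a b ≤ T g a a + c * (M g a a + M g b a) := by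
  have h1 : T g a b ≤ T g a a + ∑ _u : Fin c, ∑ v : Fin c, if g (v, a) ≠ g (v, b) then 1 else 0 := by
    unfold T
    rw [← Finset.sum_add_distrib]
    refine Finset.sum_le_sum fun u _ => ?_
    rw [← Finset.sum_add_distrib]
    refine Finset.sum_le_sum fun v _ => ?_
    by_cases h1 : g (u, a) = g (v, a)
    · rw [h1]
      exact Nat.le_add_left _ _
    · rw [if_pos h1]
      split_ifs <;> omega
  refine h1.trans ?_
  rw [Finset.sum_const, Finset.card_univ, Fintype.card_fin, smul_eq_mul]
  gcongr
  unfold M
  rw [← Finset.sum_add_distrib]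
  refine Finset.sum_le_sum fun v _ => ?_
  obtain ⟨w, hw⟩ := Bg_neighbor hc v
  split_ifs with h2
  · by_cases h3 : g (v, a) = g (w, a)
    · have h4 : g (v, b) ≠ g (w, a) := fun h => h2 (h3.trans h.symm)
      have h5 : (if (Bg c).Adj v w ∧ g (v, b) ≠ g (w, a) then 1 else 0) ≤
          ∑ x : Fin c, if (Bg c).Adj v x ∧ g (v, b) ≠ g (x, a) then 1 else 0 :=
        Finset.single_le_sum (f := fun x => if (Bg c).Adj v x ∧ g (v, b) ≠ g (x, a) then 1 else 0)
          (fun _ _ => Nat.zero_le _) (mem_univ w)
      rw [if_pos ⟨hw, h4⟩] at h5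
      omega
    · have h5 : (if (Bg c).Adj v w ∧ g (v, a) ≠ g (w, a) then 1 else 0) ≤
          ∑ x : Fin c, if (Bg c).Adj v x ∧ g (v, a) ≠ g (x, a) then 1 else 0 :=
        Finset.single_le_sum (f := fun x => if (Bg c).Adj v x ∧ g (v, a) ≠ g (x, a) then 1 else 0)
          (fun _ _ => Nat.zero_le _) (mem_univ w)
      rw [if_pos ⟨hw, h3⟩] at h5
      omega
  · exact Nat.zero_le _

theorem al_double [Fintype S] (hc : 2 ≤ c) : al g ≤ 6657 * (2 * c) * bi (Dg c) g := by
  rw [al_eq, bi_eq]
  have h1 := T_diag g (by omega : 1 ≤ c) true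
  have h2 := T_diag g (by omega : 1 ≤ c) false
  have h3 := T_off g hc true false
  have h4 := T_off g hc false true
  nlinarith [Nat.zero_le (c * M g true true), Nat.zero_le (c * M g false false),
    Nat.zero_le (c * M g true false), Nat.zero_le (c * M g false true)]

end

theorem Dg_al {c : ℕ} (hc : 2 ≤ c) {S : Type} [Fintype S] [DecidableEq S] (g : Fin c × Bool → S) :
    al g ≤ 6657 * Fintype.card (Fin c × Bool) * bi (Dg c) g := by
  have h := al_double g hc
  have e : Fintype.card (Fin c × Bool) = 2 * c := by simp [mul_comm]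
  rwa [e]

theorem Dg_connected {c : ℕ} (hc : 2 ≤ c) : (Dg c).Connected := by
  have : Nonempty (Fin c × Bool) := ⟨(⟨0, by omega⟩, true)⟩
  exact connected_of_al (Dg c) 6657 fun g => Dg_al hc g

/-- **Even simple expanders.** For every `c ≥ 2` there is a connected simple graph on `2 c` vertices
with positive even degrees at most `64` and a Poincaré inequality. -/
theorem exists_graph (c : ℕ) (hc : 2 ≤ c) :
    ∃ (G : SimpleGraph (Fin c × Bool)) (_ : DecidableRel G.Adj), G.Connected ∧
      (∀ v, Even (G.degree v)) ∧ (∀ v, 0 < G.degree v) ∧ (∀ v, G.degree v ≤ 64) ∧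
      ∀ (m : ℕ) (g : Fin c × Bool → Fin m),
        al g ≤ 6657 * Fintype.card (Fin c × Bool) * bi G g := by
  refine ⟨Dg c, inferInstance, Dg_connected hc, ?_, ?_, ?_, fun m g => Dg_al hc g⟩
  · intro v
    rw [Dg_degree]
    exact even_two.mul_left _
  · intro v
    rw [Dg_degree]
    obtain ⟨w, hw⟩ := Bg_neighbor hc v.1
    have h := (degree_pos_iff_exists_adj (G := Bg c) (v := v.1)).2 ⟨w, hw⟩
    omega
  · intro v
    rw [Dg_degree]
    have := Bg_degree c v.1
    omega

end Helper84K9.PC
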