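import Pool.Agent.Helper84K9.PC.Defs

/-!
# The Hamming distance, and the words of the oriented polygons
-/

set_option autoImplicit false

namespace Helper84K9.PC.PolyComplex

open Finset

variable {n : ℕ}

theorem dh_nonneg (σ τ : Equiv.Perm (Fin n)) : 0 ≤ dh σ τ := by
  unfold dh; positivity

theorem dh_self (σ : Equiv.Perm (Fin n)) : dh σ σ = 0 := by
  unfold dh; simp

theorem dh_mul_left (ρ σ τ : Equiv.Perm (Fin n)) : dh (ρ * σ) (ρ * τ) = dh σ τ := by
  unfold dh
  simp

theorem dh_mul_right (ρ σ τ : Equiv.Perm (Fin n)) : dh (σ * ρ) (τ * ρ) = dh σ τ := by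
  unfold dh
  congr 2
  apply Finset.card_bij (fun j _ => ρ j)
  · intro j hj
    rw [mem_filter] at hj ⊢
    exact ⟨mem_univ _, hj.2⟩
  · intro a _ b _ h
    exact ρ.injective h
  · intro b hb
    rw [mem_filter] at hb
    refine ⟨ρ.symm b, ?_, by simp⟩
    rw [mem_filter]
    refine ⟨mem_univ _, ?_⟩
    have := hb.2
    rw [Equiv.Perm.mul_apply, Equiv.Perm.mul_apply, Equiv.apply_symm_apply]
    exact this

theorem dh_comm (σ τ : Equiv.Perm (Fin n)) : dh σ τ = dh τ σ := by
  unfold dh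
  simp only [ne_comm]

theorem dh_inv (σ : Equiv.Perm (Fin n)) : dh σ⁻¹ 1 = dh σ 1 := by
  have h := dh_mul_left σ σ⁻¹ 1
  rw [mul_inv_cancel, mul_one] at h
  rw [← h, dh_comm]

theorem dh_conj (ρ σ : Equiv.Perm (Fin n)) : dh (ρ⁻¹ * σ * ρ) 1 = dh σ 1 := by
  have h1 := dh_mul_left ρ (ρ⁻¹ * σ * ρ) 1
  rw [← h1]
  have h2 := dh_mul_right ρ σ 1
  rw [← h2]
  congr 1
  · group

theorem dh_inv_mul (σ τ : Equiv.Perm (Fin n)) : dh (σ⁻¹ * τ) 1 = dh σ τ := by
  have h1 := dh_mul_left σ (σ⁻¹ * τ) 1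
  rw [← h1, mul_inv_cancel_left, mul_one, dh_comm]

theorem dh_mul_inv (σ τ : Equiv.Perm (Fin n)) : dh (σ * τ⁻¹) 1 = dh σ τ := by
  have h1 := dh_mul_right τ (σ * τ⁻¹) 1
  rw [← h1, inv_mul_cancel_right, one_mul]

/-! ### words -/

section Word

variable {Γ : Type} [Group Γ] {N : ℕ}

/-- the product of `A (i + j)`, `j < m` -/
def wd (A : ZMod N → Γ) (i : ZMod N) (m : ℕ) : Γ := ((List.range m).map fun j => A (i + (j : ℕ))).prod

theorem wd_succ (A : ZMod N → Γ) (i : ZMod N) (m : ℕ) : wd A i (m + 1) = wd A i m * A (i + m) := by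
  unfold wd
  rw [List.range_succ, List.map_append, List.prod_append]
  simp

theorem wd_succ' (A : ZMod N → Γ) (i : ZMod N) (m : ℕ) : wd A i (m + 1) = A i * wd A (i + 1) m := by
  induction m with
  | zero => simp [wd]
  | succ m ih =>
    rw [wd_succ, ih, wd_succ, mul_assoc]
    congr 3
    push_cast
    ring

/-- rotation by one step -/
theorem wd_rot (A : ZMod N → Γ) (i : ZMod N) : wd A (i + 1) N = (A i)⁻¹ * wd A i N * A i := by
  rcases Nat.eq_zero_or_pos N with rfl | h
  · simp [wd]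
  · obtain ⟨m, rfl⟩ : ∃ m, N = m + 1 := ⟨N - 1, by omega⟩
    rw [wd_succ, wd_succ']
    have h2 : (i + 1 + (m : ℕ) : ZMod (m + 1)) = i := by
      have : ((m + 1 : ℕ) : ZMod (m + 1)) = 0 := ZMod.natCast_self _
      push_cast at this
      linear_combination this
    rw [h2]
    group

theorem wd_rev (A : ZMod N → Γ) (i : ZMod N) (m : ℕ) :
    ((List.range m).map fun j => (A (i - 1 - (j : ℕ)))⁻¹).prod = (wd A (i - m) m)⁻¹ := by
  induction m with
  | zero => simp [wd]
  | succ m ih =>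
    rw [List.range_succ, List.map_append, List.prod_append, ih, wd_succ']
    simp only [List.map_cons, List.map_nil, List.prod_cons, List.prod_nil, mul_one, Nat.cast_succ,
      mul_inv_rev]
    have e1 : i - 1 - (m : ZMod N) = i - (m + 1) := by ring
    have e2 : i - (m : ZMod N) = i - (m + 1) + 1 := by ring
    rw [e1, ← e2]

end Word

variable (X : PolyComplex)

theorem δ1_true (α : X.E → Equiv.Perm (Fin n)) (p : X.P) (i : ZMod (X.len p)) :
    X.δ1 α p i true = wd (fun z => α (X.bd p z)) i (X.len p) := rfl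

theorem δ1_false {α : X.E → Equiv.Perm (Fin n)} (hα : X.IsCochain α) (p : X.P)
    (i : ZMod (X.len p)) :
    X.δ1 α p i false = (wd (fun z => α (X.bd p z)) i (X.len p))⁻¹ := by
  have h := wd_rev (fun z => α (X.bd p z)) i (X.len p)
  have h0 : i - ((X.len p : ℕ) : ZMod (X.len p)) = i := by rw [ZMod.natCast_self, sub_zero]
  rw [h0] at h
  rw [← h]
  unfold δ1 opath
  simp only [Bool.false_eq_true, if_false, hα _]

theorem dh_wd {N : ℕ} (A : ZMod N → Equiv.Perm (Fin n)) (i : ℕ) :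
    dh (wd A (i : ZMod N) N) 1 = dh (wd A 0 N) 1 := by
  induction i with
  | zero => simp
  | succ i ih =>
    rw [Nat.cast_succ, wd_rot, dh_conj, ih]

/-- the distance of the value from the identity does not depend on the orientation -/
theorem dh_δ1 {α : X.E → Equiv.Perm (Fin n)} (hα : X.IsCochain α) (p : X.P) (i : ℕ) (b : Bool) :
    dh (X.δ1 α p (i : ZMod _) b) 1 = dh (X.δ1 α p 0 true) 1 := by
  cases b
  · rw [δ1_false X hα, dh_inv, dh_wd, δ1_true]
  · rw [δ1_true, δ1_true, dh_wd]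

theorem normδ1_eq {α : X.E → Equiv.Perm (Fin n)} (hα : X.IsCochain α) :
    X.normδ1 α = ∑ p, X.mu2 p * dh (X.δ1 α p 0 true) 1 := by
  unfold normδ1
  refine Finset.sum_congr rfl fun p _ => ?_
  congr 1
  have h1 : ∀ i : Fin (X.len p), ∀ b : Bool, dh (X.δ1 α p (i.val : ZMod _) b) 1 =
      dh (X.δ1 α p 0 true) 1 := fun i b => dh_δ1 X hα p i.val b
  simp only [h1, Finset.sum_const, Finset.card_univ, Fintype.card_bool, Fintype.card_fin,
    nsmul_eq_mul]
  have h2 : (0 : ℝ) < X.len p := by exact_mod_cast X.len_pos p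
  push_cast
  field_simp

end Helper84K9.PC.PolyComplex
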