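import Pool.Agent.Helper84K9.PC.Bound
import Pool.Agent.Helper84K9.PC.Cplx
import Pool.Agent.Helper84K9.PC.Exp3

/-!
# The complexes
-/

set_option autoImplicit false

namespace Helper84K9.PC

open Finset SimpleGraph PolyComplex
open scoped ENNReal

/-- telescoping -/
theorem wd_tele {Γ V : Type} [Group Γ] {N : ℕ} (A : ZMod N → Γ) (Y : ZMod N → V) (β : V → Γ)
    (i : ZMod N) (m : ℕ)
    (h : ∀ j < m, A (i + (j : ℕ)) = (β (Y (i + (j : ℕ))))⁻¹ * β (Y (i + (j : ℕ) + 1))) :
    wd A i m = (β (Y i))⁻¹ * β (Y (i + (m : ℕ))) := by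
  induction m with
  | zero => simp [wd]
  | succ m ih =>
    rw [wd_succ, ih fun j hj => h j (by omega), h m (by omega)]
    have e : i + ((m + 1 : ℕ) : ZMod N) = i + (m : ℕ) + 1 := by push_cast; ring
    rw [e]
    group

theorem chord_word {V Γ : Type} [Group Γ] {G : SimpleGraph V} (c : Cyc G) (A : ZMod c.N → Γ)
    (β : V → Γ) (u v : V) (h0 : c.Y 0 = u) (h1 : c.Y 1 = v)
    (hA : ∀ j : ℕ, 1 ≤ j → j < c.N → A j = (β (c.Y j))⁻¹ * β (c.Y (j + 1))) :
    wd A 0 c.N = A 0 * ((β v)⁻¹ * β u) := by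
  obtain ⟨m, hm⟩ : ∃ m, c.N = m + 1 := ⟨c.N - 1, by have := c.pos; omega⟩
  have e1 : wd A 0 c.N = A 0 * wd A (0 + 1) m := by
    rw [← wd_succ', ← hm]
  have e2 : wd A (0 + 1) m = (β (c.Y (0 + 1)))⁻¹ * β (c.Y (0 + 1 + (m : ℕ))) := by
    apply wd_tele
    intro j hj
    have h3 := hA (1 + j) (by omega) (by omega)
    have e3 : ((1 + j : ℕ) : ZMod c.N) = 0 + 1 + (j : ℕ) := by push_cast; ring
    rw [e3] at h3
    exact h3
  have e4 : (0 + 1 + (m : ℕ) : ZMod c.N) = 0 := by
    have h5 : ((c.N : ℕ) : ZMod c.N) = 0 := ZMod.natCast_self _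
    have h6 : ((c.N : ℕ) : ZMod c.N) = ((m + 1 : ℕ) : ZMod c.N) := by congr 1
    rw [h5] at h6
    push_cast at h6
    linear_combination -h6
  rw [e1, e2, e4, h0]
  congr 3
  rw [zero_add, h1]

variable {V : Type} [Fintype V]

theorem card_filter_dart [DecidableEq V] (G : SimpleGraph V) [DecidableRel G.Adj] {S : Type} [DecidableEq S]
    (g : V → S) : bi G g = (univ.filter fun e : G.Dart => g e.fst ≠ g e.snd).card := by
  unfold bi
  symm
  refine Finset.card_bij (fun e _ => e.toProd) ?_ ?_ ?_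
  · intro e he
    simp only [mem_filter, mem_univ, true_and] at he ⊢
    exact ⟨e.adj, he⟩
  · intro e _ f _ h
    exact Dart.ext _ _ h
  · intro q hq
    simp only [mem_filter, mem_univ, true_and] at hq
    exact ⟨⟨q, hq.1⟩, by simp only [mem_filter, mem_univ, true_and]; exact hq.2, rfl⟩

theorem exists_complex [DecidableEq V] (G : SimpleGraph V) [DecidableRel G.Adj] (hconn : G.Connected)
    (heven : ∀ v, Even (G.degree v)) (hpos : ∀ v, 0 < G.degree v) (k : ℕ) (hk : 1 ≤ k)
    (hdeg : ∀ v, G.degree v ≤ k) (C : ℕ) (hC : 1 ≤ C)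
    (hal : ∀ (m : ℕ) (g : V → Fin m), al g ≤ C * Fintype.card V * bi G g) :
    ∃ X : PolyComplex, X.Connected ∧ (∀ v, X.degree v ≤ k) ∧ Nat.card X.V = Fintype.card V ∧
      ENNReal.ofReal (1 / (2 * k * ((k : ℝ) + 1) ^ 2 * C)) ≤ X.h0 ∧
      ENNReal.ofReal (1 / ((k : ℝ) + 1) ^ 2) ≤ X.h1 := by
  classical
  obtain ⟨T, hTG, hT⟩ := hconn.exists_isTree_le
  have hchord : ∀ d : {d : G.Dart // ¬ T.Adj d.fst d.snd}, ∃ c : Cyc G, c.Y 0 = d.1.fst ∧
      c.Y 1 = d.1.snd ∧ ∀ j : ℕ, 1 ≤ j → j < c.N → T.Adj (c.Y j) (c.Y (j + 1)) :=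
    fun d => exists_cyc hT hTG d.1 d.2
  choose ch hch0 hch1 hchT using hchord
  obtain ⟨v0⟩ := hconn.nonempty
  obtain ⟨w0, hw0⟩ := (degree_pos_iff_exists_adj (G := G) (v := v0)).1 (hpos v0)
  obtain ⟨et, het⟩ := exists_tourCyc (G := G) hconn heven ⟨v0, w0, hw0⟩
  let P := {d : G.Dart // ¬ T.Adj d.fst d.snd} ⊕ V
  let cc : P → Cyc G := Sum.elim ch fun _ => et
  let X : PolyComplex := ofCyc G P cc
  have hcardD : Fintype.card V ≤ Fintype.card G.Dart := by
    rw [dart_card_eq_sum_degrees]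
    calc Fintype.card V = ∑ _v : V, 1 := by simp
      _ ≤ ∑ v : V, G.degree v := Finset.sum_le_sum fun v _ => hpos v
  have hcardD2 : Fintype.card G.Dart ≤ k * Fintype.card V := by
    rw [dart_card_eq_sum_degrees]
    calc ∑ v : V, G.degree v ≤ ∑ _v : V, k := Finset.sum_le_sum fun v _ => hdeg v
      _ = k * Fintype.card V := by simp [mul_comm]
  have hdegX : ∀ v : V, (univ.filter fun e : G.Dart => e.fst = v).card ≤ k := by
    intro v
    rw [G.dart_fst_fiber_card_eq_degree v]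
    exact hdeg v
  have hW : Wt X k := by
    refine ⟨?_, ?_, hcardD, ?_, ?_⟩
    · exact Fintype.card_pos_iff.2 ⟨v0⟩
    · show Fintype.card ({d : G.Dart // ¬ T.Adj d.fst d.snd} ⊕ V) ≤ (k + 1) * Fintype.card V
      rw [Fintype.card_sum]
      have h1 := Fintype.card_subtype_le fun d : G.Dart => ¬ T.Adj d.fst d.snd
      have h2 : (k + 1) * Fintype.card V = k * Fintype.card V + Fintype.card V := by ring
      omega
    · intro v
      refine le_trans (le_of_eq ?_) (hdegX v)
      congr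
    · intro e
      have h1 : (univ : Finset V).image (Sum.inr : V → P) ⊆
          univ.filter fun p : P => ∃ i, X.bd p i = e ∨ X.bd p i = X.inv e := by
        intro p hp
        rw [mem_image] at hp
        obtain ⟨v, -, rfl⟩ := hp
        rw [mem_filter]
        refine ⟨mem_univ _, ?_⟩
        obtain ⟨s, hs⟩ := het e
        refine ⟨s, ?_⟩
        rcases hs with ⟨h1, h2⟩ | ⟨h1, h2⟩
        · left
          exact Dart.ext _ _ (Prod.ext h1 h2)
        · right
          exact Dart.ext _ _ (Prod.ext h1 h2)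
      have h2 := Finset.card_le_card h1
      rw [Finset.card_image_of_injective _ Sum.inr_injective, Finset.card_univ] at h2
      exact h2
  refine ⟨X, ⟨⟨v0⟩, ?_⟩, ?_, ?_, ?_, ?_⟩
  · -- connectedness
    intro v w
    obtain ⟨p⟩ := hconn.preconnected v w
    induction p with
    | nil => exact Relation.ReflTransGen.refl
    | cons h p ih =>
      exact Relation.ReflTransGen.head ⟨(⟨(_, _), h⟩ : G.Dart), rfl, rfl⟩ ih
  · intro v
    unfold PolyComplex.degree
    have h1 : Nat.card {e : X.E // X.src e = v} = (univ.filter fun e : G.Dart => e.fst = v).card := by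
      have h2 : Nat.card {e : X.E // X.src e = v} = Nat.card {e : G.Dart // e.fst = v} := rfl
      rw [h2, Nat.card_eq_fintype_card, Fintype.card_subtype]
    rw [h1]
    refine le_trans (le_of_eq ?_) (hdegX v)
    congr
  · have h2 : Nat.card X.V = Nat.card V := rfl
    rw [h2, Nat.card_eq_fintype_card]
  · refine hW.h0_ge hC hk fun m (g : V → Fin m) => ?_
    have h1 := hal m g
    rw [card_filter_dart G g] at h1
    exact h1
  · refine hW.h1_ge fun n (α : G.Dart → Equiv.Perm (Fin n)) hα => ?_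
    let a : V → V → Equiv.Perm (Fin n) := fun x y => if h : G.Adj x y then α (⟨(x, y), h⟩ : G.Dart) else 1
    have ha : ∀ x y, a y x = (a x y)⁻¹ := by
      intro x y
      simp only [a]
      by_cases h : G.Adj x y
      · rw [dif_pos h, dif_pos h.symm]
        exact hα (⟨(x, y), h⟩ : G.Dart)
      · rw [dif_neg h, dif_neg fun h' => h h'.symm, inv_one]
    obtain ⟨β, hβ⟩ := exists_potential hT a ha
    refine ⟨β, ?_⟩
    have htree : ∀ e : G.Dart, T.Adj e.fst e.snd → α e = (β e.fst)⁻¹ * β e.snd := by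
      intro e he
      rw [← hβ _ _ he]
      simp only [a]
      rw [dif_pos e.adj]
    have hnt : ∀ d : {d : G.Dart // ¬ T.Adj d.fst d.snd},
        dh (X.δ1 α (Sum.inl d) 0 true) 1 = dh (α d.1) ((β d.1.fst)⁻¹ * β d.1.snd) := by
      intro d
      have h1 : X.δ1 α (Sum.inl d) 0 true =
          wd (fun z => α (⟨((ch d).Y z, (ch d).Y (z + 1)), (ch d).adj z⟩ : G.Dart)) 0 (ch d).N := rfl
      rw [h1, chord_word (ch d) _ β d.1.fst d.1.snd (hch0 d) (hch1 d)]
      · have h2 : (⟨((ch d).Y 0, (ch d).Y (0 + 1)), (ch d).adj 0⟩ : G.Dart) = d.1 := by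
          apply Dart.ext
          show ((ch d).Y 0, (ch d).Y (0 + 1)) = d.1.toProd
          rw [zero_add, hch0, hch1]
        rw [h2]
        have h3 : (β d.1.snd)⁻¹ * β d.1.fst = ((β d.1.fst)⁻¹ * β d.1.snd)⁻¹ := by group
        rw [h3, dh_mul_inv]
      · intro j hj1 hj2
        exact htree _ (hchT d j hj1 hj2)
    calc ∑ e : X.E, dh (α e) (X.δ0 β e)
        = ∑ e : G.Dart, dh (α e) ((β e.fst)⁻¹ * β e.snd) := rfl
      _ = ∑ d : {d : G.Dart // ¬ T.Adj d.fst d.snd}, dh (α d.1) ((β d.1.fst)⁻¹ * β d.1.snd) := by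
          rw [← Finset.sum_subtype (univ.filter fun d : G.Dart => ¬ T.Adj d.fst d.snd)
            (by simp) (fun e : G.Dart => dh (α e) ((β e.fst)⁻¹ * β e.snd))]
          symm
          refine Finset.sum_subset (Finset.filter_subset _ _) ?_
          intro e _ he
          rw [mem_filter] at he
          have h1 : T.Adj e.fst e.snd := by
            by_contra h2
            exact he ⟨mem_univ _, h2⟩
          rw [← htree e h1, dh_self]
      _ = ∑ d : {d : G.Dart // ¬ T.Adj d.fst d.snd}, dh (X.δ1 α (Sum.inl d) 0 true) 1 :=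
          Finset.sum_congr rfl fun d _ => (hnt d).symm
      _ ≤ ∑ d : {d : G.Dart // ¬ T.Adj d.fst d.snd}, dh (X.δ1 α (Sum.inl d) 0 true) 1 +
            ∑ v : V, dh (X.δ1 α (Sum.inr v) 0 true) 1 :=
          le_add_of_nonneg_right (Finset.sum_nonneg fun _ _ => dh_nonneg _ _)
      _ = ∑ p : X.P, dh (X.δ1 α p 0 true) 1 :=
          (Fintype.sum_sum_type (fun p : P => dh (X.δ1 α p 0 true) 1)).symm

end Helper84K9.PC
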